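import Mathlib
import Pool.Agent.Lib.MP_209724_lc.GC.Final

/-!
# A criterion for the density of exponential points, in arbitrary codimension

Let `V ⊆ ℂⁿ × (ℂ*)ⁿ` be an irreducible variety of dimension `n`, let `W` be the closure of its
projection to `ℂⁿ` and `k = n - dim W`. If some point `w` of the asymptotic cone of `W` is such
that `-Re w` is a tropical point of the generic fibre of `V → W` whose coordinates span a rational
vector space of dimension `k`, and the complexification of the smallest rational subspace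
containing `Re w` meets the tangent space of the cone at `w` only in `0`, then the points
`(x, exp x)` of `V` are Zariski dense in `V`.
-/

namespace Pool.Agent.Results.MP_209724_lc.AsymptoticConeCriterion

open MvPolynomial Filter Topology

variable {n : ℕ}

/-- The asymptotic cone of the zero set `W` of the ideal `p`: the limits of `x j / r j`, where
`r j` are reals tending to infinity and `x j ∈ W`. -/
def AsymptoticCone (p : Ideal (MvPolynomial (Fin n) ℂ)) : Set (Fin n → ℂ) :=
  {w | ∃ (r : ℕ → ℝ) (x : ℕ → Fin n → ℂ), Tendsto r atTop atTop ∧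
    (∀ j, ∀ f ∈ p, eval (x j) f = 0) ∧ Tendsto (fun j => (r j)⁻¹ • x j) atTop (𝓝 w)}

/-- `ρ` is a tropical point of the generic fibre of the projection of the zero set of `Q` to the
`x`-space: for no `f ∈ Q` is there a unique exponent `m` minimizing `∑ ρ i * m i` among the
exponents `m` of `y` in `f` whose coefficient, a polynomial in `x`, is not in `Q`. -/
def TropicalPoint (Q : Ideal (MvPolynomial (Fin n) (MvPolynomial (Fin n) ℂ)))
    (ρ : Fin n → ℝ) : Prop :=
  ∀ f ∈ Q, ∀ m, C (f.coeff m) ∉ Q → ∃ m', m' ≠ m ∧ C (f.coeff m') ∉ Q ∧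
    ∑ i, ρ i * (m' i : ℝ) ≤ ∑ i, ρ i * (m i : ℝ)

/-- The vectors `b ∈ ℂⁿ` satisfying all integral linear relations satisfied by `Re w` form the
complexification of the smallest rational subspace of `ℝⁿ` containing `Re w`. The set `S` is
transversal to it at `w` if no such `b ≠ 0` lies in the Zariski tangent space of `S` at `w`. -/
def TransversalAt (S : Set (Fin n → ℂ)) (w : Fin n → ℂ) : Prop :=
  ∀ b : Fin n → ℂ, b ≠ 0 →
    (∀ m : Fin n → ℤ, ∑ i, (m i : ℝ) * (w i).re = 0 → ∑ i, (m i : ℂ) * b i = 0) →
    ∃ F : MvPolynomial (Fin n) ℂ, (∀ w' ∈ S, eval w' F = 0) ∧ ∑ i, b i * eval w (pderiv i F) ≠ 0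

/-- Let `n > 0` and let `Q` be a prime ideal of `ℂ[x][y]`, `x = (x₁, …, xₙ)`, `y = (y₁, …, yₙ)`,
which contains no `y i`, such that `ℂ[x][y] ⧸ Q` has transcendence degree `n`, and let `k` be `n`
minus the transcendence degree of `ℂ[x] ⧸ (Q ∩ ℂ[x])`. Suppose that `w` is a point of the
asymptotic cone of `Q ∩ ℂ[x]` such that `-Re w` is a tropical point, the coordinates of `Re w`
span a rational vector space of dimension `k`, and the asymptotic cone is transversal at `w` to
the rational span of `Re w`. Then for every `D ∉ Q` there are `x ∈ ℂⁿ` of arbitrarily large norm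
such that `(x, exp x)` is a zero of `Q` and not a zero of `D`. -/
theorem result (hn : 0 < n) (Q : Ideal (MvPolynomial (Fin n) (MvPolynomial (Fin n) ℂ)))
    (hQ : Q.IsPrime)
    (hy : ∀ i, (X i : MvPolynomial (Fin n) (MvPolynomial (Fin n) ℂ)) ∉ Q)
    (hdim : Algebra.trdeg ℂ (MvPolynomial (Fin n) (MvPolynomial (Fin n) ℂ) ⧸ Q) = n) (k : ℕ)
    (hk : Algebra.trdeg ℂ (MvPolynomial (Fin n) ℂ ⧸ Q.comap C) + k = n)
    (w : Fin n → ℂ) (hw : w ∈ AsymptoticCone (Q.comap C))
    (htrop : TropicalPoint Q fun i => -(w i).re)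
    (hrank : Module.finrank ℚ (Submodule.span ℚ (Set.range fun i => (w i).re)) = k)
    (htrans : TransversalAt (AsymptoticCone (Q.comap C)) w)
    (D : MvPolynomial (Fin n) (MvPolynomial (Fin n) ℂ)) (hD : D ∉ Q) (M : ℝ) :
    ∃ x : Fin n → ℂ, M < ‖x‖ ∧
      (∀ f ∈ Q, eval (fun i => Complex.exp (x i)) (map (eval x) f) = 0) ∧
      eval (fun i => Complex.exp (x i)) (map (eval x) D) ≠ 0 :=
  have := hQ
  Pool.Agent.Lib.MP_209724_lc.GC.final hn Q hy hdim k hk w hw htrop hrank htrans D hD M

end Pool.Agent.Results.MP_209724_lc.AsymptoticConeCriterion
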