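import Mathlib
import Pool.Agent.Lib.MP_209724_lc.OV.Transfer

/-!
# Exponential points on free rotund varieties whose projection to the additive group is a curve

Let `V ⊆ ℂⁿ × (ℂ*)ⁿ` be an irreducible variety, of any dimension, which is free and rotund, and let
`W` be the Zariski closure of its projection to `ℂⁿ`. If `W` is a curve, then there are points
`(x, exp x)` on `V` with `x` of arbitrarily large norm, for every `n`.

The variety `V` is given by a prime ideal `Q` of `ℂ[x, y]`, `x = (x₁, …, xₙ)`, `y = (y₁, …, yₙ)`,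
which contains no `y i`. The variable `x i` is `X (Sum.inl i)`, the variable `y i` is `X (Sum.inr i)`.
-/

namespace Pool.Agent.Results.MP_209724_lc.CurveProjection

open MvPolynomial Pool.Agent.Lib.MP_209724_lc.OV

variable {n : ℕ}

/-- The function field of `V`. -/
abbrev FunctionField (Q : Ideal (MvPolynomial (Fin n ⊕ Fin n) ℂ)) [Q.IsPrime] : Type :=
  FractionRing (MvPolynomial (Fin n ⊕ Fin n) ℂ ⧸ Q)

/-- The function on `V` given by a polynomial in `x`, `y`. -/
noncomputable def fn (Q : Ideal (MvPolynomial (Fin n ⊕ Fin n) ℂ)) [Q.IsPrime]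
    (f : MvPolynomial (Fin n ⊕ Fin n) ℂ) : FunctionField Q :=
  algebraMap (MvPolynomial (Fin n ⊕ Fin n) ℂ ⧸ Q) (FunctionField Q) (Ideal.Quotient.mk Q f)

/-- The coordinate function `x i` on `V`. -/
noncomputable def xcoord (Q : Ideal (MvPolynomial (Fin n ⊕ Fin n) ℂ)) [Q.IsPrime] (i : Fin n) :
    FunctionField Q := fn Q (X (Sum.inl i))

/-- The coordinate function `y i` on `V`. -/
noncomputable def ycoord (Q : Ideal (MvPolynomial (Fin n ⊕ Fin n) ℂ)) [Q.IsPrime] (i : Fin n) :
    FunctionField Q := fn Q (X (Sum.inr i))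

/-- `V` is free: neither `∑ m i * x i` nor `∏ y i ^ m i` is constant on `V`, for `m ∈ ℤⁿ` nonzero. -/
def Free (Q : Ideal (MvPolynomial (Fin n ⊕ Fin n) ℂ)) [Q.IsPrime] : Prop :=
  ∀ m : Fin n → ℤ, m ≠ 0 → ∀ c : ℂ,
    ∑ i, (m i : FunctionField Q) * xcoord Q i ≠ algebraMap ℂ (FunctionField Q) c ∧
      ∏ i, ycoord Q i ^ m i ≠ algebraMap ℂ (FunctionField Q) c

/-- `V` is rotund: for every integral matrix `B`, the dimension of the image of `V` under
`(x, y) ↦ (B x, y ^ B)`, which is the transcendence degree of the algebra generated by the functions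
`∑ j, B i j * x j` and `∏ j, y j ^ B i j` on `V`, is at least the rank of `B`. -/
def Rotund (Q : Ideal (MvPolynomial (Fin n ⊕ Fin n) ℂ)) [Q.IsPrime] : Prop :=
  ∀ B : Matrix (Fin n) (Fin n) ℤ, ((B.map (Int.cast : ℤ → ℚ)).rank : Cardinal) ≤
    Algebra.trdeg ℂ (Algebra.adjoin ℂ
      (Set.range (fun i => ∑ j, (B i j : FunctionField Q) * xcoord Q j) ∪
        Set.range fun i => ∏ j, ycoord Q j ^ B i j))

/-- Let `n > 0` and let `Q` be a prime ideal of `ℂ[x, y]`, `x = (x₁, …, xₙ)`, `y = (y₁, …, yₙ)`,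
which contains no `y i`, such that its zero set `V` in `ℂⁿ × (ℂ*)ⁿ` is free and rotund. Suppose that
the Zariski closure `W` of the projection of `V` to `ℂⁿ` has dimension one. Then for every polynomial
`c` in `x` which does not vanish on `V` and every `M` there is `x ∈ ℂⁿ` with `M < ‖x‖`,
`(x, exp x) ∈ V` and `c(x) ≠ 0`. -/
theorem result (hn : 0 < n) (Q : Ideal (MvPolynomial (Fin n ⊕ Fin n) ℂ)) [hQ : Q.IsPrime]
    (hy : ∀ i, (X (Sum.inr i) : MvPolynomial (Fin n ⊕ Fin n) ℂ) ∉ Q)
    (hfree : Free Q) (hrot : Rotund Q)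
    (h : Algebra.trdeg ℂ (Algebra.adjoin ℂ (Set.range (xcoord Q))) = 1)
    (c : MvPolynomial (Fin n) ℂ) (hc : rename Sum.inl c ∉ Q) (M : ℝ) :
    ∃ x : Fin n → ℂ, M < ‖x‖ ∧
      (∀ f ∈ Q, eval (Sum.elim x fun i => Complex.exp (x i)) f = 0) ∧ eval x c ≠ 0 := by
  have hinj : Function.Injective
      (algebraMap (MvPolynomial (Fin n ⊕ Fin n) ℂ ⧸ Q) (FunctionField Q)) :=
    IsFractionRing.injective _ _
  have hfn : ∀ f, fn Q f = 0 ↔ f ∈ Q := by
    intro f
    rw [fn, map_eq_zero_iff _ hinj, Ideal.Quotient.eq_zero_iff_mem]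
  have haev : ∀ f : MvPolynomial (Fin n ⊕ Fin n) ℂ,
      aeval (Sum.elim (xcoord Q) (ycoord Q)) f = fn Q f := by
    intro f
    induction f using MvPolynomial.induction_on with
    | C a =>
      rw [aeval_C]
      rfl
    | add p q hp hq =>
      rw [map_add, hp, hq]
      simp only [fn, map_add]
    | mul_X p i hp =>
      rw [map_mul, hp, aeval_X]
      rcases i with i | i
      · simp only [fn, xcoord, Sum.elim_inl, map_mul]
      · simp only [fn, ycoord, Sum.elim_inr, map_mul]
  have hne : ∀ i, ycoord Q i ≠ 0 := fun i h0 => hy i ((hfn _).1 h0)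
  have hE := transfer hn (xcoord Q) (ycoord Q) hne hfree hrot (Or.inr h)
  obtain ⟨x, hx, hxc, hf⟩ := hE c (by
    intro h0
    apply hc
    rw [← hfn, ← haev, aeval_rename, Sum.elim_comp_inl]
    exact h0) M
  exact ⟨x, hx, fun f hfQ => hf f (by rw [haev, hfn]; exact hfQ), hxc⟩

end Pool.Agent.Results.MP_209724_lc.CurveProjection
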