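import Mathlib
import Pool.Agent.Lib.MP_209724_lc.HS.Final

/-!
# Exponential points on varieties whose projection to the additive group has codimension at most one

Let `V ⊆ ℂⁿ × (ℂ*)ⁿ` be an irreducible variety of dimension `n`, let `W` be the Zariski closure of
its projection to `ℂⁿ`, and suppose that `W` is given by one equation `P = 0` (so `W = ℂⁿ`, or `W`
is a hypersurface and the fibres of `V → W` are curves in `(ℂ*)ⁿ` which may move with `x`) and is
contained in no rational affine hyperplane. If no monomial `y ^ m` is algebraic over `ℂ(W)`, or if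
the leading form of `P` is not constant in some direction orthogonal to all `m` such that `y ^ m` is
algebraic over `ℂ(W)`, then the points `(x, exp x)` of `V` are Zariski dense in `V`.
-/

namespace Pool.Agent.Results.MP_209724_lc.HypersurfaceProjection

open MvPolynomial

variable {n : ℕ}

/-- The monomial `y ^ m` is algebraic over the field of rational functions of the projection of the
zero set `V` of `Q` in `ℂⁿ × (ℂ*)ⁿ` to `ℂⁿ`: there is a polynomial `F` in one variable `t` with
coefficients in `ℂ[x]`, not all in `Q`, such that `F(x, y ^ m) = 0` for all `(x, y)` in `V`. -/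
def AlgebraicMonomial (Q : Ideal (MvPolynomial (Fin n) (MvPolynomial (Fin n) ℂ)))
    (m : Fin n → ℤ) : Prop :=
  ∃ F : Polynomial (MvPolynomial (Fin n) ℂ), (∃ j, C (F.coeff j) ∉ Q) ∧
    ∀ x y : Fin n → ℂ, (∀ i, y i ≠ 0) → (∀ f ∈ Q, eval y (map (eval x) f) = 0) →
      (F.map (eval x)).eval (∏ i, y i ^ m i) = 0

/-- Let `n > 0` and let `Q` be a prime ideal of `ℂ[x][y]`, `x = (x₁, …, xₙ)`, `y = (y₁, …, yₙ)`,
which contains no `y i`, such that `ℂ[x][y] ⧸ Q` has transcendence degree `n` and `Q ∩ ℂ[x]` is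
generated by one polynomial `P`, which divides no `∑ m i * x i - c` with `m ∈ ℤⁿ` nonzero. Suppose
that `P = 0`, or that no `y ^ m` with `m ≠ 0` is algebraic over the field of rational functions of
the projection, or that there is `v ∈ ℂⁿ`, orthogonal to all `m ∈ ℤⁿ` such that `y ^ m` is algebraic
over this field, with `∑ v i * ∂p/∂x i ≠ 0`, where `p` is the leading form of `P`. Then for every
`D ∉ Q` there are `x ∈ ℂⁿ` of arbitrarily large norm such that `(x, exp x)` is a zero of `Q` and not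
a zero of `D`. -/
theorem result (hn : 0 < n) (Q : Ideal (MvPolynomial (Fin n) (MvPolynomial (Fin n) ℂ)))
    (hQ : Q.IsPrime)
    (hy : ∀ i, (X i : MvPolynomial (Fin n) (MvPolynomial (Fin n) ℂ)) ∉ Q)
    (hdim : Algebra.trdeg ℂ (MvPolynomial (Fin n) (MvPolynomial (Fin n) ℂ) ⧸ Q) = n)
    (P : MvPolynomial (Fin n) ℂ) (hP : ∀ c : MvPolynomial (Fin n) ℂ, C c ∈ Q ↔ P ∣ c)
    (hW : ∀ m : Fin n → ℤ, m ≠ 0 → ∀ c : ℂ, ¬ P ∣ ∑ i, C (m i : ℂ) * X i - C c)
    (h : P = 0 ∨ (∀ m : Fin n → ℤ, AlgebraicMonomial Q m → m = 0) ∨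
      ∃ v : Fin n → ℂ, (∀ m : Fin n → ℤ, AlgebraicMonomial Q m → ∑ i, (m i : ℂ) * v i = 0) ∧
        ∑ i, C (v i) * pderiv i (homogeneousComponent P.totalDegree P) ≠ 0)
    (D : MvPolynomial (Fin n) (MvPolynomial (Fin n) ℂ)) (hD : D ∉ Q) (M : ℝ) :
    ∃ x : Fin n → ℂ, M < ‖x‖ ∧
      (∀ f ∈ Q, eval (fun i => Complex.exp (x i)) (map (eval x) f) = 0) ∧
      eval (fun i => Complex.exp (x i)) (map (eval x) D) ≠ 0 :=
  have := hQ
  Pool.Agent.Lib.MP_209724_lc.HS.final hn Q hy hdim P hP (fun m hm c => Or.inr (hW m hm c)) h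
    D hD M

end Pool.Agent.Results.MP_209724_lc.HypersurfaceProjection
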