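import Mathlib
import Pool.Agent.Lib.MP_209724_lc.Hyperbolic

/-!
# Exponential-algebraic closedness for `H × W`, `H` a non-hyperbolic hypersurface, `W` a curve

Let `H ⊆ ℂⁿ` be a hypersurface `P = 0` with leading form `p`, and let `W ⊆ (ℂ*)ⁿ` be a curve. Near
each of its punctures `W` is parametrised by `t ↦ (t ^ a i * g i t)_i` with `a ∈ ℤⁿ` and `g i`
analytic and nonzero at `0`. We show that `H × W` contains points `(x, exp x)`, with `exp x` as
close to the puncture as we like, as soon as `p` is not hyperbolic in the direction `a` (in the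
sense of Gårding); for instance as soon as `p(a) ≠ 0` and `p` is not proportional to a real form,
or as soon as `p` has no nontrivial real zero.
-/

namespace Pool.Agent.Results.MP_209724_lc.NonHyperbolicTimesCurve

open Pool.Agent.Lib.MP_209724_lc MvPolynomial Filter Topology

theorem exists_log {g : ℂ → ℂ} (hg : AnalyticAt ℂ g 0) (hg0 : g 0 ≠ 0) :
    ∃ ℓ : ℂ → ℂ, AnalyticAt ℂ ℓ 0 ∧ ∀ᶠ t in 𝓝 (0 : ℂ), Complex.exp (ℓ t) = g t := by
  refine ⟨fun t => Complex.log (g t / g 0) + Complex.log (g 0), ?_, ?_⟩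
  · have h1 : AnalyticAt ℂ (fun t => g t / g 0) 0 := hg.div_const
    refine AnalyticAt.add ?_ analyticAt_const
    exact h1.clog (by rw [div_self hg0]; exact Complex.one_mem_slitPlane)
  · filter_upwards [hg.continuousAt.eventually_ne hg0] with t ht
    rw [Complex.exp_add, Complex.exp_log (div_ne_zero ht hg0), Complex.exp_log hg0,
      div_mul_cancel₀ _ hg0]

theorem nonHyperbolic {n : ℕ} (P : MvPolynomial (Fin n) ℂ) (a : Fin n → ℤ)
    (h : NonHyperbolic (homogeneousComponent P.totalDegree P) a ∨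
      (eval (fun i => (a i : ℂ)) (homogeneousComponent P.totalDegree P) ≠ 0 ∧
        ∃ κ : Fin n → ℝ, (eval (fun i => (κ i : ℂ)) (homogeneousComponent P.totalDegree P) /
          eval (fun i => (a i : ℂ)) (homogeneousComponent P.totalDegree P)).im ≠ 0) ∨
      (2 ≤ n ∧ 0 < P.totalDegree ∧ a ≠ 0 ∧ ∀ κ : Fin n → ℝ,
        eval (fun i => (κ i : ℂ)) (homogeneousComponent P.totalDegree P) = 0 → κ = 0)) :
    NonHyperbolic (homogeneousComponent P.totalDegree P) a := by
  have hp := homogeneousComponent_isHomogeneous P.totalDegree P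
  rcases h with h | ⟨ha, κ, hκ⟩ | ⟨hn, hd, ha, hell⟩
  · exact h
  · exact nonHyperbolic_of_nonreal _ hp κ a ha hκ
  · obtain ⟨i, hi⟩ := Function.ne_iff.mp ha
    have hi' : (a i : ℝ) ≠ 0 := by exact_mod_cast hi
    obtain ⟨j, hj⟩ : ∃ j : Fin n, j ≠ i := by
      have : Nontrivial (Fin n) := Fin.nontrivial_iff_two_le.mpr hn
      exact exists_ne i
    refine nonHyperbolic_of_no_real_roots _ hp hd (fun k => if k = j then 1 else 0) a ?_ ?_
    · intro h0
      have h1 := hell (fun k => (a k : ℝ)) (by rw [← h0]; congr 2)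
      exact hi' (congrFun h1 i)
    · intro s h0
      have h1 := hell _ h0
      have h2 := congrFun h1 i
      have h3 := congrFun h1 j
      simp only [hj.symm, if_false, zero_add, Pi.zero_apply, mul_eq_zero, hi', or_false] at h2
      simp [h2] at h3

/-- Let `P ∈ ℂ[x₁, …, xₙ]` have degree `d` and leading form `p`, let `a ∈ ℤⁿ`, and let `g₁, …, gₙ`
be analytic and nonzero at `0`. Suppose that `p` is not hyperbolic in the direction `a`, or that
`p(a) ≠ 0` and `p / p(a)` takes a nonreal value on `ℝⁿ`, or that `n ≥ 2`, `d ≥ 1`, `a ≠ 0` and `p`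
has no zero in `ℝⁿ` but `0`. Then for each `ε > 0` there are `t ∈ ℂ` with `0 < |t| < ε` and
`x ∈ ℂⁿ` with `P(x) = 0` and `exp(x i) = t ^ a i * g i t` for all `i`. -/
theorem result {n : ℕ} (P : MvPolynomial (Fin n) ℂ) (a : Fin n → ℤ) (g : Fin n → ℂ → ℂ)
    (hg : ∀ i, AnalyticAt ℂ (g i) 0) (hg0 : ∀ i, g i 0 ≠ 0)
    (h : NonHyperbolic (homogeneousComponent P.totalDegree P) a ∨
      (eval (fun i => (a i : ℂ)) (homogeneousComponent P.totalDegree P) ≠ 0 ∧
        ∃ κ : Fin n → ℝ, (eval (fun i => (κ i : ℂ)) (homogeneousComponent P.totalDegree P) /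
          eval (fun i => (a i : ℂ)) (homogeneousComponent P.totalDegree P)).im ≠ 0) ∨
      (2 ≤ n ∧ 0 < P.totalDegree ∧ a ≠ 0 ∧ ∀ κ : Fin n → ℝ,
        eval (fun i => (κ i : ℂ)) (homogeneousComponent P.totalDegree P) = 0 → κ = 0))
    (ε : ℝ) (hε : 0 < ε) :
    ∃ (t : ℂ) (x : Fin n → ℂ), 0 < ‖t‖ ∧ ‖t‖ < ε ∧ eval x P = 0 ∧
      ∀ i, Complex.exp (x i) = t ^ (a i) * g i t := by
  have hnh := nonHyperbolic P a h
  choose ℓ hℓ hexp using fun i => exists_log (hg i) (hg0 i)
  obtain ⟨κ, σ, hσ, h0, hne⟩ :=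
    hnh.exists_neg_re (homogeneousComponent_isHomogeneous P.totalDegree P)
  obtain ⟨δ, hδ, hδexp⟩ := Metric.eventually_nhds_iff.mp (eventually_all.mpr hexp)
  obtain ⟨s, k, hs, hsol⟩ := linear_scaling P a ℓ hℓ κ σ hσ h0 hne (Real.log (min ε δ))
  have hnorm : ‖Complex.exp s‖ < min ε δ := by
    rw [Complex.norm_exp]
    exact (Real.lt_log_iff_exp_lt (lt_min hε hδ)).mp hs
  refine ⟨Complex.exp s, curve a ℓ k s, norm_pos_iff.mpr (Complex.exp_ne_zero s),
    lt_of_lt_of_le hnorm (min_le_left _ _), hsol, fun i => ?_⟩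
  have h1 := hδexp (y := Complex.exp s)
    (by rw [dist_zero_right]; exact lt_of_lt_of_le hnorm (min_le_right _ _)) i
  unfold curve
  rw [Complex.exp_add, Complex.exp_add, h1, Complex.exp_int_mul]
  have h2 : Complex.exp (2 * Real.pi * Complex.I * (k i : ℂ)) = 1 := by
    rw [mul_comm]
    exact Complex.exp_int_mul_two_pi_mul_I (k i)
  rw [h2, mul_one]

end Pool.Agent.Results.MP_209724_lc.NonHyperbolicTimesCurve
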